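import Pool.Agent.Helper33.RS.Defs
import Pool.Agent.Helper1.RS.L3

/-!
# The covering of the difference body
-/

set_option autoImplicit false
namespace Pool.Agent.Helper33.RS
open MeasureTheory Metric Set
open Pool.Agent.Helper59.Pack Pool.Agent.Helper69.MD
open scoped ENNReal Pointwise RealInnerProductSpace

theorem kktF {ι : Type*} [Fintype ι] (a : ι → E3) (c : ι → ℝ)
    (w p : E3) (hp : ∀ i, ⟪a i, p⟫ ≤ c i)
    (hmax : ∀ x, (∀ i, ⟪a i, x⟫ ≤ c i) → ⟪w, x⟫ ≤ ⟪w, p⟫) :
    ∃ (S : Finset ι) (g : ι → ℝ), S.card ≤ 3 ∧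
      (∀ i ∈ S, 0 < g i ∧ ⟪a i, p⟫ = c i) ∧ w = ∑ i ∈ S, g i • a i := by
  classical
  set e := Fintype.equivFin ι with he
  obtain ⟨S, g, h1, h2, h3⟩ := Helper1.RS.kkt (fun i => a (e.symm i)) (fun i => c (e.symm i)) w p
    (fun i => hp _) (fun x hx => hmax x fun i => by
      have := hx (e i)
      simpa using this)
  refine ⟨S.map e.symm.toEmbedding, fun i => g (e i), ?_, ?_, ?_⟩
  · rw [Finset.card_map]
    exact h1
  · intro i hi
    rw [Finset.mem_map] at hi
    obtain ⟨j, hj, rfl⟩ := hi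
    have := h2 j hj
    simpa using this
  · rw [Finset.sum_map]
    simpa using h3

theorem kkt1 {U : Finset E3} {n q : E3} (h : Maxi U n q) :
    ∃ (S : Finset E3) (g : E3 → ℝ), S ⊆ U ∧
      (∀ u ∈ S, 0 < g u ∧ ⟪u, q⟫ = 1) ∧ n = ∑ u ∈ S, g u • u := by
  classical
  obtain ⟨S, g, -, h2, h3⟩ := kktF (fun u : U => (u : E3)) (fun _ => (1 : ℝ)) n q
    (fun u => h.1 u u.2) (fun x hx => h.2 x fun u hu => hx ⟨u, hu⟩)
  refine ⟨S.map (Function.Embedding.subtype _), fun u => if hu : u ∈ U then g ⟨u, hu⟩ else 0, ?_, ?_, ?_⟩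
  · intro u hu
    rw [Finset.mem_map] at hu
    obtain ⟨v, hv, rfl⟩ := hu
    exact v.2
  · intro u hu
    rw [Finset.mem_map] at hu
    obtain ⟨v, hv, rfl⟩ := hu
    have := h2 v hv
    simpa using this
  · rw [Finset.sum_map]
    simpa using h3

theorem kkt2 {U : Finset E3} {n z p : E3} (hp : p ∈ poly U) (hz : p - z ∈ poly U)
    (hmax : ∀ x ∈ poly U, x - z ∈ poly U → ⟪n, x⟫ ≤ ⟪n, p⟫) :
    ∃ (A B : Finset E3) (g h : E3 → ℝ), A ⊆ U ∧ B ⊆ U ∧ A.card + B.card ≤ 3 ∧
      (∀ u ∈ A, 0 < g u ∧ ⟪u, p⟫ = 1) ∧ (∀ u ∈ B, 0 < h u ∧ ⟪u, p - z⟫ = 1) ∧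
      n = ∑ u ∈ A, g u • u + ∑ u ∈ B, h u • u := by
  classical
  obtain ⟨S, g, h1, h2, h3⟩ := kktF (Sum.elim (fun u : U => (u : E3)) (fun u : U => (u : E3)))
    (Sum.elim (fun _ => (1 : ℝ)) (fun u : U => 1 + ⟪(u : E3), z⟫)) n p
    (by
      rintro (u | u)
      · exact hp u u.2
      · have := hz u u.2
        rw [inner_sub_right] at this
        simp only [Sum.elim_inr]
        linarith)
    (by
      intro x hx
      refine hmax x (fun u hu => hx (Sum.inl ⟨u, hu⟩)) fun u hu => ?_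
      have := hx (Sum.inr ⟨u, hu⟩)
      simp only [Sum.elim_inr] at this
      rw [inner_sub_right]
      linarith)
  refine ⟨S.toLeft.map (Function.Embedding.subtype _), S.toRight.map (Function.Embedding.subtype _),
    fun u => if hu : u ∈ U then g (Sum.inl ⟨u, hu⟩) else 0,
    fun u => if hu : u ∈ U then g (Sum.inr ⟨u, hu⟩) else 0, ?_, ?_, ?_, ?_, ?_, ?_⟩
  · intro u hu
    rw [Finset.mem_map] at hu
    obtain ⟨v, hv, rfl⟩ := hu
    exact v.2
  · intro u hu
    rw [Finset.mem_map] at hu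
    obtain ⟨v, hv, rfl⟩ := hu
    exact v.2
  · rw [Finset.card_map, Finset.card_map, Finset.card_toLeft_add_card_toRight]
    exact h1
  · intro u hu
    rw [Finset.mem_map] at hu
    obtain ⟨v, hv, rfl⟩ := hu
    rw [Finset.mem_toLeft] at hv
    have := h2 _ hv
    simpa using this
  · intro u hu
    rw [Finset.mem_map] at hu
    obtain ⟨v, hv, rfl⟩ := hu
    rw [Finset.mem_toRight] at hv
    have := h2 _ hv
    simp only [Sum.elim_inr] at this
    refine ⟨by simpa using this.1, ?_⟩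
    rw [inner_sub_right]
    simp only [Function.Embedding.coe_subtype]
    linarith [this.2]
  · rw [Finset.sum_map, Finset.sum_map]
    have h4 : S = S.toLeft.disjSum S.toRight := (Finset.toLeft_disjSum_toRight).symm
    rw [h4, Finset.sum_disjSum] at h3
    simpa using h3

/-- Two maximal points whose difference is orthogonal to the vectors of `T` agree. -/
theorem uniq {U : Finset E3} {w n q q' : E3} (hg : Gen U w) {T : Finset E3} (hT : T ⊆ U)
    (hTd : ∀ v ∈ T, ⟪v, q - q'⟫ = 0) (hn : w - n ∈ Submodule.span ℝ (T : Set E3))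
    (hq : Maxi U n q) (hq' : Maxi U n q') : q = q' := by
  classical
  by_contra hne
  have hd : q - q' ≠ 0 := sub_ne_zero.2 hne
  set m : E3 := (1 / 2 : ℝ) • (q + q') with hm
  have hval : ⟪n, q⟫ = ⟪n, q'⟫ := le_antisymm (hq'.2 q hq.1) (hq.2 q' hq'.1)
  have hmM : Maxi U n m := by
    refine ⟨fun u hu => ?_, fun x hx => ?_⟩
    · have h1 := hq.1 u hu
      have h2 := hq'.1 u hu
      rw [hm, inner_smul_right, inner_add_right]
      linarith
    · have h1 := hq.2 x hx
      rw [hm, inner_smul_right, inner_add_right, ← hval]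
      linarith
  obtain ⟨S, g, hS, h1, h2⟩ := kkt1 hmM
  have hSd : ∀ v ∈ S, ⟪v, q - q'⟫ = 0 := by
    intro v hv
    have h3 := (h1 v hv).2
    have h4 := hq.1 v (hS hv)
    have h5 := hq'.1 v (hS hv)
    rw [hm, inner_smul_right, inner_add_right] at h3
    rw [inner_sub_right]
    linarith
  have hspan : Submodule.span ℝ ((T ∪ S : Finset E3) : Set E3) ≠ ⊤ := by
    intro htop
    have h3 : ∀ x ∈ Submodule.span ℝ ((T ∪ S : Finset E3) : Set E3), ⟪x, q - q'⟫ = 0 := by
      intro x hx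
      induction hx using Submodule.span_induction with
      | mem x hx =>
        rcases Finset.mem_union.1 (Finset.mem_coe.1 hx) with h | h
        · exact hTd x h
        · exact hSd x h
      | zero => exact inner_zero_left _
      | add x y _ _ hx hy => rw [inner_add_left, hx, hy, add_zero]
      | smul a x _ hx => rw [inner_smul_left, hx, mul_zero]
    have h4 := h3 (q - q') (by rw [htop]; trivial)
    exact hd (inner_self_eq_zero.1 h4)
  refine hg (T ∪ S) (Finset.union_subset hT hS) hspan ?_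
  have e : w = (w - n) + n := by abel
  rw [e]
  refine add_mem (Submodule.span_mono (by simp) hn) ?_
  rw [h2]
  refine sum_mem fun v hv => Submodule.smul_mem _ _ (Submodule.subset_span ?_)
  simp [hv]

theorem maxi_of_sum {U : Finset E3} {n q : E3} (hq : q ∈ poly U) {B : Finset E3} {h : E3 → ℝ}
    (hB : B ⊆ U) (h1 : ∀ u ∈ B, 0 < h u ∧ ⟪u, q⟫ = 1) (hn : n = ∑ u ∈ B, h u • u) : Maxi U n q := by
  refine ⟨hq, fun x hx => ?_⟩
  rw [hn, sum_inner, sum_inner]
  refine Finset.sum_le_sum fun u hu => ?_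
  rw [real_inner_smul_left, real_inner_smul_left, (h1 u hu).2]
  exact mul_le_mul_of_nonneg_left (hx u (hB hu)) (h1 u hu).1.le

/-- The covering. -/
theorem cover {U : Finset E3} (hb : Bornology.IsBounded (poly U)) {w p₀ : E3} (hg : Gen U w)
    (hp₀ : Maxi U w p₀) {z : E3} (hz : z ∈ poly U - poly U) :
    z + p₀ ∈ poly U ∨ p₀ - z ∈ poly U ∨
      (∃ u ∈ U, ∃ x ∈ face U u, ∃ q ∈ path U w u, z = x - q) ∨
      (∃ u ∈ U, ∃ x ∈ face U u, ∃ q ∈ path U w u, z = q - x) := by
  classical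
  have hclosed : IsClosed (poly U) := by
    have : poly U = ⋂ u ∈ U, {x | ⟪u, x⟫ ≤ 1} := by
      ext x
      simp [poly]
    rw [this]
    refine isClosed_biInter fun u _ => isClosed_le (by fun_prop) continuous_const
  have hcomp : IsCompact (poly U) := Metric.isCompact_of_isClosed_isBounded hclosed hb
  obtain ⟨x₀, hx₀, y₀, hy₀, hxy⟩ := hz
  have hK : IsCompact (poly U ∩ (fun x => x - z) ⁻¹' poly U) :=
    hcomp.inter_right (hclosed.preimage (by fun_prop))
  have hne : (poly U ∩ (fun x => x - z) ⁻¹' poly U).Nonempty := by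
    refine ⟨x₀, hx₀, ?_⟩
    change x₀ - z ∈ poly U
    rw [← hxy]
    simpa using hy₀
  obtain ⟨p, hp, hpm⟩ := hK.exists_isMaxOn hne (f := fun x => ⟪w, x⟫) (by fun_prop)
  obtain ⟨A, B, g, h, hA, hB, hcard, h1, h2, h3⟩ := kkt2 (n := w) (z := z) hp.1 hp.2
    (fun x hx hxz => hpm ⟨hx, hxz⟩)
  have hunique : ∀ q, Maxi U w q → q = p₀ := fun q hq =>
    uniq hg (T := ∅) (by simp) (by simp) (by simp) hq hp₀
  have hp2 : p - z ∈ poly U := hp.2
  rcases A.eq_empty_or_nonempty with hA0 | hA0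
  · -- all active constraints at `p - z`
    left
    have h4 := maxi_of_sum hp2 hB h2 (n := w) (by rw [h3, hA0]; simp)
    have h5 := hunique _ h4
    rw [← h5]
    simpa using hp.1
  rcases B.eq_empty_or_nonempty with hB0 | hB0
  · right; left
    have h4 := maxi_of_sum hp.1 hA h1 (n := w) (by rw [h3, hB0]; simp)
    have h5 := hunique _ h4
    rw [← h5]
    exact hp2
  have hA1 := hA0.card_pos
  have hB1 := hB0.card_pos
  have hor : A.card = 1 ∨ B.card = 1 := by omega
  rcases hor with h4 | h4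
  · right; right; left
    obtain ⟨u, hu⟩ := Finset.card_eq_one.1 h4
    have huA : u ∈ A := by simp [hu]
    refine ⟨u, hA huA, p, ⟨hp.1, (h1 u huA).2⟩, p - z, ⟨g u, (h1 u huA).1.le, ?_⟩, by abel⟩
    refine maxi_of_sum hp2 hB h2 ?_
    rw [h3, hu]
    simp
  · right; right; right
    obtain ⟨u, hu⟩ := Finset.card_eq_one.1 h4
    have huB : u ∈ B := by simp [hu]
    refine ⟨u, hB huB, p - z, ⟨hp2, (h2 u huB).2⟩, p, ⟨h u, (h2 u huB).1.le, ?_⟩, by abel⟩
    refine maxi_of_sum hp.1 hA h1 ?_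
    rw [h3, hu]
    simp

end Pool.Agent.Helper33.RS
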