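import Pool.Agent.Helper59.Pack.Section

/-!
# RS: the volume of the difference body and the asymmetry: definitions
-/

set_option autoImplicit false
namespace Pool.Agent.Helper33.RS
open MeasureTheory Metric Set
open Pool.Agent.Helper59.Pack Pool.Agent.Helper69.MD
open scoped ENNReal Pointwise RealInnerProductSpace

/-- The polyhedron given by `⟪u, x⟫ ≤ 1`, `u ∈ U`. -/
def poly (U : Finset E3) : Set E3 := {x | ∀ u ∈ U, ⟪u, x⟫ ≤ 1}

/-- The facet in the direction `u`. -/
def face (U : Finset E3) (u : E3) : Set E3 := {x | x ∈ poly U ∧ ⟪u, x⟫ = 1}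

/-- The cone over the facet. -/
def cone (U : Finset E3) (u : E3) : Set E3 := {x | ∃ r ∈ Icc (0 : ℝ) 1, ∃ y ∈ face U u, x = r • y}

/-- `w` is outside of every proper subspace spanned by some of the vectors of `U`. -/
def Gen (U : Finset E3) (w : E3) : Prop :=
  ∀ J : Finset E3, J ⊆ U → Submodule.span ℝ (J : Set E3) ≠ ⊤ → w ∉ Submodule.span ℝ (J : Set E3)

/-- `q` maximises the form `⟪n, ·⟫` on the polyhedron. -/
def Maxi (U : Finset E3) (n q : E3) : Prop := q ∈ poly U ∧ ∀ x ∈ poly U, ⟪n, x⟫ ≤ ⟪n, q⟫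

/-- The points which maximise one of the forms `w - α u`, `α ≥ 0`. -/
def path (U : Finset E3) (w u : E3) : Set E3 := {q | ∃ α : ℝ, 0 ≤ α ∧ Maxi U (w - α • u) q}

end Pool.Agent.Helper33.RS
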