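import Pool.Agent.Helper33.RS.Poly
import Pool.Agent.Helper4.RS.Gen

/-!
# The volume of the difference body and the asymmetry
-/

set_option autoImplicit false
namespace Pool.Agent.Helper33.RS
open MeasureTheory Metric Set
open Pool.Agent.Helper59.Pack Pool.Agent.Helper69.MD
open scoped ENNReal Pointwise RealInnerProductSpace

/-- If `x - K ⊆ s K` then the volume of `K - K` is at most `(2 + 6 s)` times the volume of `K`. -/
theorem diff_vol {K : Set E3} (hK : IsConvexBody K) {s : ℝ} {x : E3} (hs : 0 ≤ s)
    (h : ∀ y ∈ K, x - y ∈ s • K) :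
    volume (K - K) ≤ ENNReal.ofReal (2 + 6 * s) * volume K :=
  Helper4.RS.diff_vol (Helper4.RS.polyCase_of fun _ _ hs0 hb hu => poly_diff hb hs0 hu) hK hs h

end Pool.Agent.Helper33.RS
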