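import Pool.Agent.Helper59.Pack.Section

/-!
# Slabs and cones over a facet
-/

set_option autoImplicit false
namespace Pool.Agent.Helper33.RS
open MeasureTheory Metric Set
open Pool.Agent.Helper59.Pack Pool.Agent.Helper69.MD
open scoped ENNReal Pointwise RealInnerProductSpace

theorem fub {A : Set E3} (hA : MeasurableSet A) :
    volume A = ∫⁻ t : ℝ, volume {y : P2 | mk3 y t ∈ A} := by
  have h1 := mp_mk3.measure_preimage hA.nullMeasurableSet
  rw [← h1, Measure.volume_eq_prod, Measure.prod_apply (mp_mk3.measurable hA)]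
  rfl

theorem mk3_pr (x : E3) : mk3 (pr x) (x 2) = x := by
  apply E3_ext <;> rfl

theorem mk3_add (y y' : P2) (t t' : ℝ) : mk3 (y + y') (t + t') = mk3 y t + mk3 y' t' := by
  apply E3_ext <;> rfl

theorem mk3_smul (r : ℝ) (y : P2) (t : ℝ) : mk3 (r • y) (r * t) = r • mk3 y t := by
  apply E3_ext <;> rfl

theorem upper {F A : Set E3} (hA : MeasurableSet A) {a b : ℝ}
    (h : ∀ z ∈ A, z 2 ∈ Icc a b) (hF : ∀ x ∈ F, x 2 = 1)
    (hq : ∀ t, ∃ q : E3, ∀ z ∈ A, z 2 = t → z + q ∈ F) :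
    volume A ≤ ENNReal.ofReal (b - a) * volume {y : P2 | mk3 y 1 ∈ F} := by
  rw [fub hA]
  have h1 : ∀ t : ℝ, volume {y : P2 | mk3 y t ∈ A} ≤
      (Icc a b).indicator (fun _ => volume {y : P2 | mk3 y 1 ∈ F}) t := by
    intro t
    by_cases ht : t ∈ Icc a b
    · rw [indicator_of_mem ht]
      obtain ⟨q, hq⟩ := hq t
      have h2 : {y : P2 | mk3 y t ∈ A} ⊆ (fun y => y + pr q) ⁻¹' {y : P2 | mk3 y 1 ∈ F} := by
        intro y hy
        have h3 := hq _ hy rfl
        have h4 := hF _ h3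
        change mk3 (y + pr q) 1 ∈ F
        have h5 : mk3 (y + pr q) 1 = mk3 y t + q := by
          apply E3_ext
          · rfl
          · rfl
          · exact h4.symm
        rw [h5]
        exact h3
      refine (measure_mono h2).trans (le_of_eq ?_)
      exact measure_preimage_add_right _ _ _
    · rw [indicator_of_notMem ht]
      have h2 : {y : P2 | mk3 y t ∈ A} = ∅ := by
        ext y
        simp only [mem_ofPred_eq, mem_empty_iff_false, iff_false]
        intro hy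
        exact ht (h _ hy)
      rw [h2, measure_empty]
  refine (lintegral_mono h1).trans (le_of_eq ?_)
  rw [lintegral_indicator measurableSet_Icc, setLIntegral_const, Real.volume_Icc, mul_comm]

theorem lower {F Cn : Set E3} (hC : MeasurableSet Cn)
    (h : ∀ x ∈ F, ∀ r : ℝ, 0 < r → r ≤ 1 → r • x ∈ Cn) :
    ENNReal.ofReal (1 / 3) * volume {y : P2 | mk3 y 1 ∈ F} ≤ volume Cn := by
  rw [fub hC]
  have h1 : ∀ t : ℝ, (Ioc (0:ℝ) 1).indicator
      (fun t => ENNReal.ofReal (t ^ 2) * volume {y : P2 | mk3 y 1 ∈ F}) t ≤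
      volume {y : P2 | mk3 y t ∈ Cn} := by
    intro t
    by_cases ht : t ∈ Ioc (0:ℝ) 1
    · rw [indicator_of_mem ht]
      have h2 : t • {y : P2 | mk3 y 1 ∈ F} ⊆ {y : P2 | mk3 y t ∈ Cn} := by
        rintro _ ⟨y, hy, rfl⟩
        change mk3 (t • y) t ∈ Cn
        have h3 := h _ hy t ht.1 ht.2
        rw [← mk3_smul, mul_one] at h3
        exact h3
      refine le_trans (le_of_eq ?_) (measure_mono h2)
      rw [Measure.addHaar_smul]
      simp
    · rw [indicator_of_notMem ht]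
      exact bot_le
  refine le_trans (le_of_eq ?_) (lintegral_mono h1)
  rw [lintegral_indicator measurableSet_Ioc, lintegral_mul_const _ (by fun_prop)]
  congr 1
  rw [← ofReal_integral_eq_lintegral_ofReal]
  · congr 1
    rw [← intervalIntegral.integral_of_le zero_le_one, integral_pow]
    norm_num
  · exact ((continuous_id.pow 2).integrableOn_Icc).mono_set Ioc_subset_Icc_self
  · exact Filter.Eventually.of_forall fun t => sq_nonneg t

/-- A linear isomorphism which makes the form `⟪u, ·⟫` the last coordinate. -/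
theorem exists_lin {u : E3} (hu : u ≠ 0) : ∃ L : E3 ≃ₗ[ℝ] E3, ∀ x, (L x) 2 = ⟪u, x⟫ := by
  set e : E3 := EuclideanSpace.single 2 1 with he
  have hn : ‖u‖ ≠ 0 := norm_ne_zero_iff.2 hu
  have he1 : ‖e‖ = 1 := by simp [he]
  have hnorm : ‖u‖ = ‖(‖u‖ • e)‖ := by rw [norm_smul, he1, norm_norm, mul_one]
  set ρ := (ℝ ∙ (u - ‖u‖ • e))ᗮ.reflection with hρ
  have h1 : ρ u = ‖u‖ • e := Submodule.reflection_sub hnorm
  refine ⟨ρ.toLinearEquiv.trans (LinearEquiv.smulOfNeZero ℝ E3 ‖u‖ hn), fun x => ?_⟩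
  have h2 : ⟪u, x⟫ = ⟪ρ u, ρ x⟫ := (ρ.inner_map_map u x).symm
  rw [h2, h1, inner_smul_left]
  have h3 : ⟪e, ρ x⟫ = (ρ x) 2 := by
    rw [he, EuclideanSpace.inner_single_left]
    simp
  rw [h3]
  rfl

/-- The slab bound. -/
theorem slab {u : E3} (hu : u ≠ 0) {F A Cn : Set E3} (hA : MeasurableSet A)
    (hC : MeasurableSet Cn) (hF : ∀ x ∈ F, ⟪u, x⟫ = 1) {a b : ℝ} (hab : a ≤ b)
    (h1 : ∀ z ∈ A, ⟪u, z⟫ ∈ Icc a b)
    (h2 : ∀ t : ℝ, ∃ q : E3, ∀ z ∈ A, ⟪u, z⟫ = t → z + q ∈ F)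
    (h3 : ∀ x ∈ F, ∀ r : ℝ, 0 < r → r ≤ 1 → r • x ∈ Cn) :
    volume A ≤ ENNReal.ofReal (3 * (b - a)) * volume Cn := by
  obtain ⟨L, hL⟩ := exists_lin hu
  have hdet : LinearMap.det (L : E3 →ₗ[ℝ] E3) ≠ 0 := (LinearEquiv.isUnit_det' L).ne_zero
  have hcont : ∀ {X : Set E3}, MeasurableSet X → MeasurableSet ((L : E3 →ₗ[ℝ] E3) '' X) := by
    intro X hX
    have : ((L : E3 →ₗ[ℝ] E3) '' X) = L.toContinuousLinearEquiv.toHomeomorph '' X := rfl
    rw [this]
    exact (L.toContinuousLinearEquiv.toHomeomorph.measurableEmbedding.measurableSet_image).2 hX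
  have e1 := upper (F := (L : E3 →ₗ[ℝ] E3) '' F) (A := (L : E3 →ₗ[ℝ] E3) '' A) (hcont hA) (a := a) (b := b)
    (by
      rintro _ ⟨z, hz, rfl⟩
      have := h1 z hz
      rw [← hL] at this
      exact this)
    (by
      rintro _ ⟨z, hz, rfl⟩
      have := hF z hz
      rw [← hL] at this
      exact this)
    (by
      intro t
      obtain ⟨q, hq⟩ := h2 t
      refine ⟨L q, ?_⟩
      rintro _ ⟨z, hz, rfl⟩ hzt
      have h4 : ⟪u, z⟫ = t := by
        rw [← hL]
        exact hzt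
      refine ⟨z + q, hq z hz h4, ?_⟩
      exact map_add _ _ _)
  have e2 := lower (F := (L : E3 →ₗ[ℝ] E3) '' F) (Cn := (L : E3 →ₗ[ℝ] E3) '' Cn) (hcont hC)
    (by
      rintro _ ⟨z, hz, rfl⟩ r hr0 hr1
      refine ⟨r • z, h3 z hz r hr0 hr1, ?_⟩
      exact map_smul _ _ _)
  rw [Measure.addHaar_image_linearMap] at e1 e2
  set D := ENNReal.ofReal |LinearMap.det (L : E3 →ₗ[ℝ] E3)| with hD
  have hD0 : D ≠ 0 := by
    rw [hD]
    simpa using hdet
  have hDt : D ≠ ⊤ := ENNReal.ofReal_ne_top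
  set B := volume {y : P2 | mk3 y 1 ∈ (L : E3 →ₗ[ℝ] E3) '' F} with hB
  have e3 : B = ENNReal.ofReal 3 * (ENNReal.ofReal (1 / 3) * B) := by
    rw [← mul_assoc, ← ENNReal.ofReal_mul (by norm_num)]
    norm_num
  have e4 : D * volume A ≤ D * (ENNReal.ofReal (3 * (b - a)) * volume Cn) := by
    calc D * volume A ≤ ENNReal.ofReal (b - a) * B := e1
      _ = ENNReal.ofReal (b - a) * (ENNReal.ofReal 3 * (ENNReal.ofReal (1 / 3) * B)) := by rw [← e3]
      _ ≤ ENNReal.ofReal (b - a) * (ENNReal.ofReal 3 * (D * volume Cn)) := by gcongr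
      _ = D * (ENNReal.ofReal (3 * (b - a)) * volume Cn) := by
        rw [ENNReal.ofReal_mul (by norm_num : (0:ℝ) ≤ 3)]
        ring
  exact (ENNReal.mul_le_mul_iff_right hD0 hDt).1 e4

end Pool.Agent.Helper33.RS
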