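import Pool.Agent.Helper33.RS.Cover
import Pool.Agent.Helper33.RS.Slab

/-!
# The measure of a facet minus a path
-/

set_option autoImplicit false
namespace Pool.Agent.Helper33.RS
open MeasureTheory Metric Set
open Pool.Agent.Helper59.Pack Pool.Agent.Helper69.MD
open scoped ENNReal Pointwise RealInnerProductSpace

theorem poly_closed (U : Finset E3) : IsClosed (poly U) := by
  have : poly U = ⋂ u ∈ U, {x | ⟪u, x⟫ ≤ 1} := by
    ext x
    simp [poly]
  rw [this]
  refine isClosed_biInter fun u _ => isClosed_le (by fun_prop) continuous_const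

theorem poly_compact {U : Finset E3} (hb : Bornology.IsBounded (poly U)) : IsCompact (poly U) :=
  Metric.isCompact_of_isClosed_isBounded (poly_closed U) hb

theorem face_compact {U : Finset E3} (hb : Bornology.IsBounded (poly U)) (u : E3) :
    IsCompact (face U u) := by
  have : face U u = poly U ∩ {x | ⟪u, x⟫ = 1} := rfl
  rw [this]
  exact (poly_compact hb).inter_right (isClosed_eq (by fun_prop) continuous_const)

theorem cone_compact {U : Finset E3} (hb : Bornology.IsBounded (poly U)) (u : E3) :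
    IsCompact (cone U u) := by
  have h := ((isCompact_Icc (a := (0:ℝ)) (b := 1)).prod (face_compact hb u)).image
    (f := fun p : ℝ × E3 => p.1 • p.2) (by fun_prop)
  have e : cone U u = (fun p : ℝ × E3 => p.1 • p.2) '' (Icc (0:ℝ) 1 ×ˢ face U u) := by
    ext x
    constructor
    · rintro ⟨r, hr, y, hy, rfl⟩
      exact ⟨(r, y), ⟨hr, hy⟩, rfl⟩
    · rintro ⟨⟨r, y⟩, ⟨hr, hy⟩, rfl⟩
      exact ⟨r, hr, y, hy, rfl⟩
  rw [e]
  exact h

/-- The part of the path with bounded parameter. -/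
def pathN (U : Finset E3) (w u : E3) (n : ℕ) : Set E3 :=
  {q | ∃ α : ℝ, α ∈ Icc (0:ℝ) n ∧ Maxi U (w - α • u) q}

theorem pathN_compact {U : Finset E3} (hb : Bornology.IsBounded (poly U)) (w u : E3) (n : ℕ) :
    IsCompact (pathN U w u n) := by
  have h1 : IsCompact ((Icc (0:ℝ) n ×ˢ poly U) ∩
      {p : ℝ × E3 | ∀ x ∈ poly U, ⟪w - p.1 • u, x⟫ ≤ ⟪w - p.1 • u, p.2⟫}) := by
    refine ((isCompact_Icc).prod (poly_compact hb)).inter_right ?_
    have : {p : ℝ × E3 | ∀ x ∈ poly U, ⟪w - p.1 • u, x⟫ ≤ ⟪w - p.1 • u, p.2⟫} =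
        ⋂ x ∈ poly U, {p : ℝ × E3 | ⟪w - p.1 • u, x⟫ ≤ ⟪w - p.1 • u, p.2⟫} := by
      ext p
      simp
    rw [this]
    refine isClosed_biInter fun x _ => isClosed_le (by fun_prop) (by fun_prop)
  have h2 := h1.image (f := Prod.snd) continuous_snd
  have e : pathN U w u n = Prod.snd '' ((Icc (0:ℝ) n ×ˢ poly U) ∩
      {p : ℝ × E3 | ∀ x ∈ poly U, ⟪w - p.1 • u, x⟫ ≤ ⟪w - p.1 • u, p.2⟫}) := by
    ext q
    constructor
    · rintro ⟨α, hα, hq, hm⟩
      exact ⟨(α, q), ⟨⟨hα, hq⟩, hm⟩, rfl⟩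
    · rintro ⟨⟨α, q'⟩, ⟨⟨hα, hq⟩, hm⟩, rfl⟩
      exact ⟨α, hα, hq, hm⟩
  rw [e]
  exact h2

/-- The facet minus the path. -/
def dset (U : Finset E3) (w u : E3) : Set E3 :=
  {z | ∃ x ∈ face U u, ∃ q ∈ path U w u, z = x - q}

theorem dset_meas {U : Finset E3} (hb : Bornology.IsBounded (poly U)) (w u : E3) :
    MeasurableSet (dset U w u) := by
  have e : dset U w u = ⋃ n : ℕ, (fun p : E3 × E3 => p.1 - p.2) '' (face U u ×ˢ pathN U w u n) := by
    ext z
    constructor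
    · rintro ⟨x, hx, q, ⟨α, hα, hq⟩, rfl⟩
      obtain ⟨n, hn⟩ := exists_nat_ge α
      exact mem_iUnion.2 ⟨n, (x, q), ⟨hx, ⟨α, ⟨hα, hn⟩, hq⟩⟩, rfl⟩
    · intro hz
      obtain ⟨n, ⟨x, q⟩, ⟨hx, ⟨α, hα, hq⟩⟩, rfl⟩ := mem_iUnion.1 hz
      exact ⟨x, hx, q, ⟨α, hα.1, hq⟩, rfl⟩
  rw [e]
  refine MeasurableSet.iUnion fun n => ?_
  exact (((face_compact hb u).prod (pathN_compact hb w u n)).image (by fun_prop)).isClosed.measurableSet

theorem one_height {U : Finset E3} {w u q q' : E3} (hg : Gen U w) (hu : u ∈ U)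
    (hq : q ∈ path U w u) (hq' : q' ∈ path U w u) (h : ⟪u, q⟫ = ⟪u, q'⟫) : q = q' := by
  obtain ⟨α, hα, hM⟩ := hq
  obtain ⟨β, hβ, hM'⟩ := hq'
  have h1 := hM.2 q' hM'.1
  have h2 := hM'.2 q hM.1
  have h3 : ⟪w, q⟫ = ⟪w, q'⟫ := by
    rw [inner_sub_left, inner_sub_left, real_inner_smul_left, real_inner_smul_left] at h1 h2
    rw [h] at h1 h2
    linarith
  have hM2 : Maxi U (w - α • u) q' := by
    refine ⟨hM'.1, fun x hx => ?_⟩
    have h4 := hM.2 x hx
    have h5 : ⟪w - α • u, q'⟫ = ⟪w - α • u, q⟫ := by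
      rw [inner_sub_left, inner_sub_left, real_inner_smul_left, real_inner_smul_left, h, h3]
    rw [h5]
    exact h4
  refine uniq hg (T := {u}) (by simpa using hu) ?_ ?_ hM hM2
  · intro v hv
    rw [Finset.mem_singleton] at hv
    rw [hv, inner_sub_right, h, sub_self]
  · have e : w - (w - α • u) = α • u := by abel
    rw [e]
    exact Submodule.smul_mem _ _ (Submodule.subset_span (by simp))

theorem path_le {U : Finset E3} {w u q p₀ : E3} (hp₀ : Maxi U w p₀) (hq : q ∈ path U w u) :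
    ⟪u, q⟫ ≤ ⟪u, p₀⟫ ∨ q ∈ {q | Maxi U w q} := by
  obtain ⟨α, hα, hM⟩ := hq
  rcases hα.lt_or_eq with h | h
  · left
    have h1 := hM.2 p₀ hp₀.1
    have h2 := hp₀.2 q hM.1
    rw [inner_sub_left, inner_sub_left, real_inner_smul_left, real_inner_smul_left] at h1
    have h3 : α * ⟪u, q⟫ ≤ α * ⟪u, p₀⟫ := by linarith
    exact le_of_mul_le_mul_left h3 h
  · right
    rw [← h] at hM
    simpa using hM

theorem dset_le {U : Finset E3} (hb : Bornology.IsBounded (poly U)) {w u p₀ : E3} (hg : Gen U w)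
    (hp₀ : Maxi U w p₀) (hu : u ∈ U) {s : ℝ} (hs : ∀ x ∈ poly U, -s ≤ ⟪u, x⟫) :
    volume (dset U w u) ≤ ENNReal.ofReal (3 * (s + ⟪u, p₀⟫)) * volume (cone U u) := by
  rcases (face U u).eq_empty_or_nonempty with h0 | ⟨x₀, hx₀⟩
  · have : dset U w u = ∅ := by
      ext z
      simp only [dset, h0, mem_empty_iff_false, iff_false]
      rintro ⟨x, hx, -⟩
      exact hx
    rw [this, measure_empty]
    exact bot_le
  have hu0 : u ≠ 0 := by
    rintro rfl
    have := hx₀.2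
    rw [inner_zero_left] at this
    exact zero_ne_one this
  have h1 := slab hu0 (F := face U u) (A := dset U w u) (Cn := cone U u) (dset_meas hb w u)
    (cone_compact hb u).isClosed.measurableSet (fun x hx => hx.2)
    (a := 1 - ⟪u, p₀⟫) (b := 1 + s) (by linarith [hs p₀ hp₀.1])
    (by
      rintro _ ⟨x, hx, q, hq, rfl⟩
      rw [inner_sub_right, hx.2]
      have h2 : ⟪u, q⟫ ≤ ⟪u, p₀⟫ := by
        rcases path_le hp₀ hq with h | h
        · exact h
        · have := uniq hg (T := ∅) (by simp) (by simp) (by simp) h hp₀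
          rw [this]
      obtain ⟨α, -, hM⟩ := hq
      have h3 := hs q hM.1
      constructor <;> linarith)
    (by
      intro t
      by_cases h : ∃ q ∈ path U w u, ⟪u, q⟫ = 1 - t
      · obtain ⟨q₁, hq₁, hqt⟩ := h
        refine ⟨q₁, ?_⟩
        rintro _ ⟨x, hx, q, hq, rfl⟩ hz
        rw [inner_sub_right, hx.2] at hz
        have : q = q₁ := one_height hg hu hq hq₁ (by linarith)
        rw [this, sub_add_cancel]
        exact hx
      · refine ⟨0, ?_⟩
        rintro _ ⟨x, hx, q, hq, rfl⟩ hz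
        rw [inner_sub_right, hx.2] at hz
        exact absurd ⟨q, hq, by linarith⟩ h)
    (fun x hx r hr0 hr1 => ⟨r, ⟨hr0.le, hr1⟩, x, hx, rfl⟩)
  have e : 3 * (1 + s - (1 - ⟪u, p₀⟫)) = 3 * (s + ⟪u, p₀⟫) := by ring
  rw [e] at h1
  exact h1

end Pool.Agent.Helper33.RS
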