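import Pool.Agent.Helper33.RS.Meas
import Pool.Agent.Helper1.RS.L5

/-!
# The difference body of a polytope
-/

set_option autoImplicit false
namespace Pool.Agent.Helper33.RS
open MeasureTheory Metric Set
open Pool.Agent.Helper59.Pack Pool.Agent.Helper69.MD
open scoped ENNReal Pointwise RealInnerProductSpace

theorem cone_sub {U : Finset E3} (u : E3) : cone U u ⊆ poly U := by
  rintro _ ⟨r, hr, y, hy, rfl⟩ v hv
  rw [inner_smul_right]
  have h1 := hy.1 v hv
  nlinarith [hr.1, hr.2]

theorem cone_disj {U : Finset E3} {u v : E3} (hu : u ∈ U) (hv : v ∈ U) (huv : u ≠ v) :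
    AEDisjoint volume (cone U u) (cone U v) := by
  have hsub : cone U u ∩ cone U v ⊆ (ℝ ∙ (u - v))ᗮ := by
    rintro x ⟨⟨r, hr, y, hy, rfl⟩, ⟨r', hr', y', hy', hx⟩⟩
    rw [SetLike.mem_coe, Submodule.mem_orthogonal_singleton_iff_inner_right]
    have h1 : ⟪u, r • y⟫ = r := by rw [inner_smul_right, hy.2, mul_one]
    have h2 : ⟪v, r • y⟫ = r' := by rw [hx, inner_smul_right, hy'.2, mul_one]
    have h3 : ⟪v, r • y⟫ ≤ r := by
      rw [inner_smul_right]
      have := hy.1 v hv
      nlinarith [hr.1]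
    have h4 : ⟪u, r • y⟫ ≤ r' := by
      rw [hx, inner_smul_right]
      have := hy'.1 u hu
      nlinarith [hr'.1]
    rw [inner_sub_left]
    linarith
  have hnull : volume ((ℝ ∙ (u - v))ᗮ : Set E3) = 0 := by
    refine Measure.addHaar_submodule _ _ fun htop => ?_
    have h1 : (u - v) ∈ (ℝ ∙ (u - v))ᗮ := by rw [htop]; trivial
    rw [Submodule.mem_orthogonal_singleton_iff_inner_right] at h1
    exact sub_ne_zero.2 huv (inner_self_eq_zero.1 h1)
  exact measure_mono_null hsub hnull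

theorem cones_le {U : Finset E3} (hb : Bornology.IsBounded (poly U)) :
    (∑ u ∈ U, volume (cone U u)) ≤ volume (poly U) := by
  rw [← measure_biUnion_finset₀ (fun u hu v hv huv => cone_disj hu hv huv)
    fun u _ => (cone_compact hb u).isClosed.measurableSet.nullMeasurableSet]
  refine measure_mono (iUnion₂_subset fun u _ => cone_sub u)

theorem poly_diff {U : Finset E3} (hb : Bornology.IsBounded (poly U)) {s : ℝ} (hs0 : 0 ≤ s)
    (hs : ∀ u ∈ U, ∀ x ∈ poly U, -s ≤ ⟪u, x⟫) :
    volume (poly U - poly U) ≤ ENNReal.ofReal (2 + 6 * s) * volume (poly U) := by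
  classical
  have hPc := poly_compact hb
  have hPfin : volume (poly U) ≠ ⊤ := hPc.measure_lt_top.ne
  have h0P : (0 : E3) ∈ poly U := fun u _ => by
    rw [inner_zero_right]
    exact zero_le_one
  obtain ⟨R, hR⟩ := hb.exists_norm_le
  have hR0 : 0 ≤ R := (norm_nonneg _).trans (hR 0 h0P)
  set c : E3 → ℝ := fun u => (volume (cone U u)).toReal with hc
  have hcfin : ∀ u, volume (cone U u) ≠ ⊤ := fun u => (cone_compact hb u).measure_lt_top.ne
  have hcsum : ∑ u ∈ U, c u ≤ (volume (poly U)).toReal := by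
    have h1 := ENNReal.toReal_mono hPfin (cones_le hb)
    rw [ENNReal.toReal_sum fun u _ => hcfin u] at h1
    exact h1
  set b : E3 := ∑ u ∈ U, (3 * c u) • u with hbdef
  set V : ℝ := (volume (poly U)).toReal with hV
  have hV0 : 0 ≤ V := ENNReal.toReal_nonneg
  have key : ∀ ε : ℝ, 0 < ε → volume (poly U - poly U) ≤
      ENNReal.ofReal ((2 + 6 * s) * V + 2 * ε * R) := by
    intro ε hε
    obtain ⟨w, hg, hw⟩ := Helper1.RS.exists_gen U (-b) hε
    obtain ⟨p₀, hp₀, hmax⟩ := hPc.exists_isMaxOn ⟨0, h0P⟩ (f := fun x => ⟪w, x⟫) (by fun_prop)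
    have hM : Maxi U w p₀ := ⟨hp₀, fun x hx => hmax hx⟩
    have hbp : ⟪b, p₀⟫ ≤ ε * R := by
      have h1 : 0 ≤ ⟪w, p₀⟫ := by
        have := hM.2 0 h0P
        rwa [inner_zero_right] at this
      have h2 : ⟪b, p₀⟫ = ⟪w - -b, p₀⟫ - ⟪w, p₀⟫ := by
        rw [inner_sub_left, inner_neg_left]
        ring
      have h3 : ⟪w - -b, p₀⟫ ≤ ‖w - -b‖ * ‖p₀‖ := real_inner_le_norm _ _
      have h4 : ‖w - -b‖ * ‖p₀‖ ≤ ε * R := mul_le_mul hw.le (hR _ hp₀) (norm_nonneg _) hε.le
      linarith
    have hcov : poly U - poly U ⊆ (fun z => z + p₀) ⁻¹' poly U ∪ ((fun z => p₀ - z) ⁻¹' poly U ∪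
        ((⋃ u ∈ U, dset U w u) ∪ ⋃ u ∈ U, (fun z => -z) ⁻¹' dset U w u)) := by
      intro z hz
      rcases cover hb hg hM hz with h | h | ⟨u, hu, x, hx, q, hq, rfl⟩ | ⟨u, hu, x, hx, q, hq, rfl⟩
      · left; exact h
      · right; left; exact h
      · right; right; left
        exact mem_iUnion₂.2 ⟨u, hu, x, hx, q, hq, rfl⟩
      · right; right; right
        refine mem_iUnion₂.2 ⟨u, hu, x, hx, q, hq, ?_⟩
        exact neg_sub q x
    have e1 : volume ((fun z => z + p₀) ⁻¹' poly U) = volume (poly U) :=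
      measure_preimage_add_right _ _ _
    have e2 : volume ((fun z => p₀ - z) ⁻¹' poly U) = volume (poly U) := by
      have h1 : (fun z => p₀ - z) ⁻¹' poly U = (fun z => -z) ⁻¹' ((fun z => z + p₀) ⁻¹' poly U) := by
        ext z
        simp only [mem_preimage]
        rw [neg_add_eq_sub]
      rw [h1]
      have h2 := Measure.measure_neg (volume : Measure E3) ((fun z => z + p₀) ⁻¹' poly U)
      rw [← e1, ← h2]
      rfl
    have e3 : ∀ u ∈ U, volume (dset U w u) ≤ ENNReal.ofReal (3 * (s + ⟪u, p₀⟫) * c u) := by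
      intro u hu
      refine (dset_le hb hg hM hu (hs u hu)).trans (le_of_eq ?_)
      have h5 : (0:ℝ) ≤ 3 * (s + ⟪u, p₀⟫) := by linarith [hs u hu p₀ hp₀]
      have h6 : ENNReal.ofReal (c u) = volume (cone U u) := ENNReal.ofReal_toReal (hcfin u)
      rw [ENNReal.ofReal_mul h5, h6]
    have e4 : ∀ u ∈ U, volume ((fun z => -z) ⁻¹' dset U w u) ≤
        ENNReal.ofReal (3 * (s + ⟪u, p₀⟫) * c u) := by
      intro u hu
      refine le_trans (le_of_eq ?_) (e3 u hu)
      exact Measure.measure_neg (volume : Measure E3) _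
    have hnn : ∀ u ∈ U, 0 ≤ 3 * (s + ⟪u, p₀⟫) * c u := fun u hu =>
      mul_nonneg (by linarith [hs u hu p₀ hp₀]) ENNReal.toReal_nonneg
    have hsum : ∑ u ∈ U, 3 * (s + ⟪u, p₀⟫) * c u ≤ 3 * s * V + ε * R := by
      have h1 : ∑ u ∈ U, 3 * (s + ⟪u, p₀⟫) * c u = 3 * s * ∑ u ∈ U, c u + ⟪b, p₀⟫ := by
        rw [hbdef, sum_inner, Finset.mul_sum, ← Finset.sum_add_distrib]
        refine Finset.sum_congr rfl fun u _ => ?_
        rw [real_inner_smul_left]
        ring
      rw [h1]
      have h2 : 3 * s * ∑ u ∈ U, c u ≤ 3 * s * V := mul_le_mul_of_nonneg_left hcsum (by positivity)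
      linarith
    have hVe : volume (poly U) = ENNReal.ofReal V := (ENNReal.ofReal_toReal hPfin).symm
    have hS : ∑ u ∈ U, ENNReal.ofReal (3 * (s + ⟪u, p₀⟫) * c u) ≤ ENNReal.ofReal (3 * s * V + ε * R) := by
      rw [← ENNReal.ofReal_sum_of_nonneg hnn]
      exact ENNReal.ofReal_le_ofReal hsum
    calc volume (poly U - poly U) ≤ _ := measure_mono hcov
      _ ≤ volume ((fun z => z + p₀) ⁻¹' poly U) + (volume ((fun z => p₀ - z) ⁻¹' poly U) +
          (volume (⋃ u ∈ U, dset U w u) + volume (⋃ u ∈ U, (fun z => -z) ⁻¹' dset U w u))) :=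
        (measure_union_le _ _).trans (add_le_add le_rfl ((measure_union_le _ _).trans
          (add_le_add le_rfl (measure_union_le _ _))))
      _ ≤ ENNReal.ofReal V + (ENNReal.ofReal V + (ENNReal.ofReal (3 * s * V + ε * R) +
          ENNReal.ofReal (3 * s * V + ε * R))) := by
        rw [e1, e2, ← hVe]
        gcongr
        · exact (measure_biUnion_finset_le _ _).trans ((Finset.sum_le_sum e3).trans hS)
        · exact (measure_biUnion_finset_le _ _).trans ((Finset.sum_le_sum e4).trans hS)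
      _ = ENNReal.ofReal ((2 + 6 * s) * V + 2 * ε * R) := by
        have h5 : 0 ≤ 3 * s * V + ε * R := by positivity
        rw [← ENNReal.ofReal_add h5 h5, ← ENNReal.ofReal_add hV0 (by linarith),
          ← ENNReal.ofReal_add hV0 (by linarith)]
        congr 1
        ring
  have hfin : volume (poly U - poly U) ≠ ⊤ :=
    ne_top_of_le_ne_top ENNReal.ofReal_ne_top (key 1 one_pos)
  have hreal : ∀ ε : ℝ, 0 < ε → (volume (poly U - poly U)).toReal ≤ (2 + 6 * s) * V + 2 * ε * R := by
    intro ε hε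
    have := ENNReal.toReal_mono ENNReal.ofReal_ne_top (key ε hε)
    rwa [ENNReal.toReal_ofReal (by positivity)] at this
  have hlim : (volume (poly U - poly U)).toReal ≤ (2 + 6 * s) * V := by
    refine le_of_forall_pos_le_add fun δ hδ => ?_
    have h1 := hreal (δ / (2 * (R + 1))) (by positivity)
    have h2 : 2 * (δ / (2 * (R + 1))) * R ≤ δ := by
      rw [show 2 * (δ / (2 * (R + 1))) * R = δ * (R / (R + 1)) by field_simp]
      have h3 : R / (R + 1) ≤ 1 := by
        rw [div_le_one (by linarith)]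
        linarith
      nlinarith
    linarith
  rw [← ENNReal.ofReal_toReal hfin]
  refine (ENNReal.ofReal_le_ofReal hlim).trans (le_of_eq ?_)
  rw [ENNReal.ofReal_mul (by linarith), ENNReal.ofReal_toReal hPfin]

end Pool.Agent.Helper33.RS
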